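import Pool.Agent.N757.RD.Final

/-!
# The reduction theorem in terms of one number
-/

set_option autoImplicit false

namespace Pool.Agent.N757.RD

open NumberField IsDedekindDomain Height Real Polynomial

/-- the numbers `y` such that `(y : 1 - y : -1)` has the properties other than closeness to a cusp -/
structure Res' {K : Type} [Field K] [NumberField K] (η : ℝ) (M r : ℕ) (y : K) : Prop where
  sizes : Sizes y (η * D y)
  bad : W (bad M y) ≤ η * D y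
  supp : W (supp y) ≤ η * D y
  pow : ∃ u : K, y = u ^ r

theorem exists_F (η : ℝ) (hη : 0 < η) (M r : ℕ) (hM : 0 < M) (hr : 0 < r) :
    ∃ m : ℕ, 0 < m ∧ ∃ C : ℝ, 0 ≤ C ∧ ∀ (K : Type) [Field K] [NumberField K] (x : K),
      x ≠ 0 → x ≠ 1 → D x ≤ C * dg K ∨ D (F m x) ≤ C * dg K ∨ Res' η M r (F m x) := by
  obtain ⟨m, s, hm, hs, hrm, hMm, hk1, hk2, hk3⟩ := exists_exponent (η / 2) (by positivity) r M hr hM
  obtain ⟨C1, hC1, hch⟩ := chain_sizes m hm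
  have hc1 := c1_nonneg
  set C2 : ℝ := (1 + M.primeFactors.card) * c1 with hC2
  have hC20 : 0 ≤ C2 := by positivity
  refine ⟨m, hm, C1 + (C1 + C2) / (η / 2), by positivity, ?_⟩
  intro K _ _ x h0 h1
  have hd := dg_pos (K := K)
  have hC1d : 0 ≤ C1 * dg K := by positivity
  have hC2d : 0 ≤ C2 * dg K := by positivity
  have hqd : 0 ≤ (C1 + C2) / (η / 2) * dg K := by positivity
  by_cases hD : D (F m x) ≤ (C1 + (C1 + C2) / (η / 2)) * dg K
  · exact Or.inr (Or.inl hD)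
  push Not at hD
  rcases hch K x h0 h1 with h | ⟨z0, z1, y0, y1, s1, s2, s3, s4⟩
  · left; nlinarith
  right; right
  have hbig : (C1 + C2) * dg K ≤ η / 2 * D (F m x) := by
    have e1 : (C1 + C2) / (η / 2) * dg K ≤ D (F m x) := by nlinarith
    have e2 := mul_le_mul_of_nonneg_left e1 (by positivity : 0 ≤ η / 2)
    have e3 : η / 2 * ((C1 + C2) / (η / 2) * dg K) = (C1 + C2) * dg K := by field_simp
    linarith
  have hDF := D_nonneg (F m x)
  have hm0 : (0 : ℝ) < m := by exact_mod_cast hm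
  have hB : (m.totient : ℝ) / m * D (F m x) + C1 * dg K ≤ η * D (F m x) := by
    have := mul_le_mul_of_nonneg_right hk1 hDF
    linarith
  have hDz : D (F m x) = m * D (Fz m x) := by rw [F_eq]; exact D_pow _ _
  refine ⟨⟨s1.mono hB, s2.mono hB, s3.mono hB, s4.mono hB⟩, ?_, ?_, ?_⟩
  · have h2 := bad_pow z0 z1 (n := m) (M := M) (s := s) (by rw [← F_eq]; exact y1) hs hMm hM.ne'
    rw [← F_eq] at h2
    have h3 : (3 + ∑ l ∈ M.primeFactors, ((m / l ^ s : ℕ) : ℝ)) * D (Fz m x) =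
        (3 + ∑ l ∈ M.primeFactors, ((m / l ^ s : ℕ) : ℝ)) / m * D (F m x) := by
      rw [hDz]; field_simp
    have h4 := mul_le_mul_of_nonneg_right hk2 hDF
    rw [h3] at h2
    linarith
  · have h2 : supp (F m x) ⊆ supp (Fz m x) := by
      intro p hp h
      apply hp
      rw [F_eq, map_pow, h, one_pow]
    have h3 := W_mono h2 (finite_ne_one z0)
    have h4 := W_supp_le z0
    have h5 : 2 * D (Fz m x) = 2 / (m : ℝ) * D (F m x) := by rw [hDz]; field_simp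
    have h6 := mul_le_mul_of_nonneg_right hk3 hDF
    have h7 : 0 ≤ η / 2 * D (F m x) := by positivity
    linarith
  · obtain ⟨k, rfl⟩ := hrm
    refine ⟨Fz (r * k) x ^ k, ?_⟩
    rw [F_eq, ← pow_mul, mul_comm k r]

/-- **Transfer.** -/
theorem transfer {K : Type} [Field K] [NumberField K] {N C C' ε ε' Δ : ℝ}
    (hC : 0 ≤ C) (hC' : 0 ≤ C') (hε : 0 < ε) (hε' : 0 < ε')
    (h : ε' * ((1 + ε) * N) ≤ ε) (hΔ : 0 ≤ Δ) {x : K}
    (hx : D x ≤ C * dg K ∨ ∃ y : K, N * D x ≤ D y + C * dg K ∧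
      R y ≤ R x + (N - 1) * D x + C * dg K ∧ D y ≤ (1 + ε') * (R y + Δ) + C') :
    D x ≤ (1 + ε) * (R x + Δ) + (1 + ε) * ((3 + ε') * C * dg K + C') := by
  have hd := dg_pos (K := K)
  have hR := R_nonneg x
  have hD := D_nonneg x
  have hCd : 0 ≤ C * dg K := by positivity
  have hεCd : 0 ≤ ε' * (C * dg K) := by positivity
  rcases hx with h2 | ⟨y, fa, fc, h3⟩
  · have e1 : 0 ≤ (1 + ε) * (R x + Δ) := by positivity
    have e2 : C * dg K ≤ (1 + ε) * ((3 + ε') * C * dg K + C') := by nlinarith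
    linarith
  · have h4 : (1 + ε') * (R y + Δ) ≤ (1 + ε') * (R x + (N - 1) * D x + C * dg K + Δ) :=
      mul_le_mul_of_nonneg_left (by linarith) (by linarith)
    obtain ⟨t, ht⟩ : ∃ t : ℝ, t = 1 - ε' * (N - 1) := ⟨_, rfl⟩
    obtain ⟨C3, hC3⟩ : ∃ C3 : ℝ, C3 = (2 + ε') * C * dg K + C' := ⟨_, rfl⟩
    have hC30 : 0 ≤ C3 := by rw [hC3]; positivity
    have h5 : D x * t ≤ (1 + ε') * (R x + Δ) + C3 := by
      rw [ht, hC3]
      nlinarith
    have h6 : 1 + ε' ≤ (1 + ε) * t := by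
      rw [ht]
      nlinarith
    have h7 : D x * (1 + ε') ≤ (1 + ε) * ((1 + ε') * (R x + Δ) + C3) := by
      have e1 : D x * (1 + ε') ≤ D x * ((1 + ε) * t) := mul_le_mul_of_nonneg_left h6 hD
      have e2 : (1 + ε) * (D x * t) ≤ (1 + ε) * ((1 + ε') * (R x + Δ) + C3) :=
        mul_le_mul_of_nonneg_left h5 (by linarith)
      linarith
    have h9 : D x ≤ (1 + ε) * (R x + Δ) + (1 + ε) * C3 := by
      by_contra hcon
      push Not at hcon
      have e0 : (1 + ε') * ((1 + ε) * (R x + Δ) + (1 + ε) * C3) < (1 + ε') * D x :=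
        mul_lt_mul_of_pos_left hcon (by linarith)
      have e1 : 0 ≤ ε' * ((1 + ε) * C3) := by positivity
      nlinarith
    have h10 : (1 + ε) * C3 ≤ (1 + ε) * ((3 + ε') * C * dg K + C') := by
      refine mul_le_mul_of_nonneg_left ?_ (by linarith)
      rw [hC3]
      linarith
    linarith

/-- the maps `q ∘ wm ∘ q ∘ (x ↦ x ^ n)` -/
theorem pre (n : ℕ) (hn : 0 < n) : ∃ C : ℝ, 0 ≤ C ∧
    ∀ (K : Type) [Field K] [NumberField K], Good K (2 * n) C (fun x : K => q (x ^ n)) ∧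
      Good K (4 * n) C (fun x : K => q (wm (q (x ^ n)))) := by
  have hn1 : (1 : ℝ) ≤ n := by exact_mod_cast hn
  have c0 : 0 ≤ Real.log (nrm (geo n)) := log_nrm_nonneg _
  have hc1 := c1_nonneg
  have hcq0 : 0 ≤ 2 * (2 * c1 + c2 + 2 * Real.log 2) := by
    have := c2_nonneg
    have : 0 ≤ Real.log 2 := Real.log_nonneg (by norm_num)
    positivity
  obtain ⟨cq, hcq⟩ : ∃ cq : ℝ, cq = 2 * (2 * c1 + c2 + 2 * Real.log 2) := ⟨_, rfl⟩
  rw [← hcq] at hcq0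
  obtain ⟨cg, hcg⟩ : ∃ cg : ℝ, cg = Real.log (nrm (geo n)) := ⟨_, rfl⟩
  rw [← hcg] at c0
  obtain ⟨b1, hb1⟩ : ∃ b : ℝ, b = cg + cq + 2 * cg := ⟨_, rfl⟩
  obtain ⟨b2, hb2⟩ : ∃ b : ℝ, b = b1 + 2 * c1 + 1 * b1 := ⟨_, rfl⟩
  obtain ⟨b3, hb3⟩ : ∃ b : ℝ, b = b2 + cq + 2 * b2 := ⟨_, rfl⟩
  have p1 : 0 ≤ b1 := by rw [hb1]; positivity
  have p2 : 0 ≤ b2 := by rw [hb2]; positivity
  have p3 : 0 ≤ b3 := by rw [hb3]; positivity
  refine ⟨b1 + b3, by positivity, ?_⟩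
  intro K _ _
  have g1 : Good K n cg (fun x : K => x ^ n) := by rw [hcg]; exact good_pow hn
  have gq : Good K 2 cq (q : K → K) := by rw [hcq]; exact good_q
  have g2 : Good K (2 * n) b1 (fun x : K => q (x ^ n)) := by
    rw [hb1]
    exact g1.comp gq hn1 (by norm_num) c0 hcq0
  have g3 : Good K (1 * (2 * n)) b2 (fun x : K => wm (q (x ^ n))) := by
    rw [hb2]
    exact g2.comp (good_wm K) (by linarith) le_rfl p1 (by positivity)
  have g4 : Good K (2 * (1 * (2 * n))) b3 (fun x : K => q (wm (q (x ^ n)))) := by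
    rw [hb3]
    exact g3.comp gq (by linarith) (by norm_num) p2 hcq0
  have e : (2 : ℝ) * (1 * (2 * n)) = 4 * n := by ring
  rw [e] at g4
  exact ⟨g2.mono (by linarith), g4.mono (by linarith)⟩

/-- all maps together -/
theorem full (η : ℝ) (hη : 0 < η) (M r : ℕ) (hM : 0 < M) (hr : 0 < r) :
    ∃ m : ℕ, 0 < m ∧ ∀ n : ℕ, 0 < n → ∃ C : ℝ, 0 ≤ C ∧ ∀ (K : Type) [Field K] [NumberField K]
      (x : K), x ≠ 0 → x ≠ 1 → D x ≤ C * dg K ∨ (q (x ^ n) ≠ 0 ∧ q (x ^ n) ≠ 1 ∧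
        ∃ y : K, y = F m (q (wm (q (x ^ n)))) ∧ y ≠ 0 ∧ y ≠ 1 ∧
          ((m : ℝ) ^ 3 * (4 * n)) * D x ≤ D y + C * dg K ∧
          R y ≤ R x + ((m : ℝ) ^ 3 * (4 * n) - 1) * D x + C * dg K ∧ Res' η M r y) := by
  obtain ⟨m, hm, C1, hC1, hF⟩ := exists_F η hη M r hM hr
  obtain ⟨C2, hC2, hgood⟩ := good_F m hm
  have hm1 : (1 : ℝ) ≤ m := by exact_mod_cast hm
  have hm3 : (1 : ℝ) ≤ (m : ℝ) ^ 3 := one_le_pow₀ hm1
  refine ⟨m, hm, fun n hn => ?_⟩
  have hn1 : (1 : ℝ) ≤ n := by exact_mod_cast hn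
  obtain ⟨C3, hC3, hpre⟩ := pre n hn
  obtain ⟨C4, hC4⟩ : ∃ C4 : ℝ, C4 = C3 + C2 + (m : ℝ) ^ 3 * C3 := ⟨_, rfl⟩
  have hC40 : 0 ≤ C4 := by rw [hC4]; positivity
  refine ⟨C1 + C3 + C4, by positivity, ?_⟩
  intro K _ _ x h0 h1
  have hd := dg_pos (K := K)
  have hD := D_nonneg x
  have d1 : 0 ≤ C1 * dg K := by positivity
  have d3 : 0 ≤ C3 * dg K := by positivity
  have d4 : 0 ≤ C4 * dg K := by positivity
  obtain ⟨g2, g4⟩ := hpre K
  have g5 : Good K ((m : ℝ) ^ 3 * (4 * n)) C4 (fun x : K => F m (q (wm (q (x ^ n))))) := by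
    rw [hC4]
    exact g4.comp (hgood K) (by linarith) hm3 hC3 hC2
  rcases g2 x h0 h1 with h | ⟨u0, u1, -, -, -⟩
  · left; linarith
  rcases g4 x h0 h1 with h | ⟨w0, w1, wa, -, -⟩
  · left; linarith
  rcases g5 x h0 h1 with h | ⟨y0, y1, ya, -, yc⟩
  · left; linarith
  have hn4 : 1 ≤ 4 * (n : ℝ) := by linarith
  have hNm : 1 ≤ (m : ℝ) ^ 3 * (4 * n) := by nlinarith
  rcases hF K _ w0 w1 with h | h | h
  · left
    have : 1 * D x ≤ 4 * n * D x := mul_le_mul_of_nonneg_right hn4 hD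
    linarith
  · left
    have : 1 * D x ≤ (m : ℝ) ^ 3 * (4 * n) * D x := mul_le_mul_of_nonneg_right hNm hD
    linarith
  · right
    exact ⟨u0, u1, _, rfl, y0, y1, by linarith, by linarith, h⟩

/-- **Uniform reduction.** The constants do not depend on the field. -/
theorem reduce_uniform (ε η : ℝ) (hε : 0 < ε) (hη : 0 < η) (M r : ℕ) (hM : 0 < M) (hr : 0 < r) :
    ∃ ε' : ℝ, 0 < ε' ∧ ∀ C' : ℝ, ∃ C : ℝ, ∀ (K : Type) [Field K] [NumberField K] (Δ : ℝ), 0 ≤ Δ →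
      (∀ y : K, y ≠ 0 → y ≠ 1 → Res' η M r y → D y ≤ (1 + ε') * (R y + Δ) + C' * dg K) →
      ∀ x : K, x ≠ 0 → x ≠ 1 → D x ≤ (1 + ε) * (R x + Δ) + C * dg K := by
  obtain ⟨m, hm, hfull⟩ := full η hη M r hM hr
  obtain ⟨C1, hC1, hF⟩ := hfull 1 one_pos
  obtain ⟨N, hN⟩ : ∃ N : ℝ, N = (m : ℝ) ^ 3 * (4 * (1 : ℕ)) := ⟨_, rfl⟩
  rw [← hN] at hF
  have hm0 : (0 : ℝ) < m := by exact_mod_cast hm
  have hN0 : 0 < N := by rw [hN]; push_cast; positivity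
  refine ⟨ε / ((1 + ε) * N), by positivity, fun C' => ?_⟩
  refine ⟨(1 + ε) * ((3 + ε / ((1 + ε) * N)) * C1 + max C' 0), ?_⟩
  intro K _ _ Δ hΔ hyp x h0 h1
  have hd := dg_pos (K := K)
  have h2 := transfer (K := K) (N := N) (C := C1) (C' := max C' 0 * dg K) (ε := ε)
    (ε' := ε / ((1 + ε) * N)) (Δ := Δ) (x := x) hC1 (by positivity) hε (by positivity)
    (by field_simp; exact le_rfl) hΔ ?_
  · refine h2.trans (le_of_eq ?_)
    ring
  · rcases hF K x h0 h1 with h | ⟨-, -, y, -, y0, y1, ya, yc, hres⟩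
    · exact Or.inl h
    · right
      refine ⟨y, ya, yc, (hyp y y0 y1 hres).trans ?_⟩
      have : C' * dg K ≤ max C' 0 * dg K := mul_le_mul_of_nonneg_right (le_max_left _ _) hd.le
      linarith

/-- **Reduction over one field.** -/
theorem reduce_field (K : Type) [Field K] [NumberField K] (S : Finset (Pl K)) (δ ε η : ℝ)
    (hδ : 0 < δ) (hε : 0 < ε) (hη : 0 < η) (M r : ℕ) (hM : 0 < M) (hr : 0 < r) :
    ∃ ε' : ℝ, 0 < ε' ∧ ∀ C' : ℝ, ∃ C : ℝ,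
      (∀ y : K, y ≠ 0 → y ≠ 1 → (∀ v ∈ S, av v y < δ) → Res' η M r y →
        D y ≤ (1 + ε') * R y + C') →
      ∀ x : K, x ≠ 0 → x ≠ 1 → D x ≤ (1 + ε) * R x + C := by
  classical
  obtain ⟨m, hm, hfull⟩ := full η hη M r hM hr
  obtain ⟨δ', hδ', hSn⟩ := S_near S m hm hδ
  obtain ⟨NN, hNpos, hNN⟩ := exists_near S hδ'
  have hd := dg_pos (K := K)
  have hm0 : (0 : ℝ) < m := by exact_mod_cast hm
  -- a uniform bound for the exponents
  obtain ⟨Nmax, hNmax⟩ : ∃ Nmax : ℕ, ∀ n ∈ NN, n ≤ Nmax := ⟨NN.sup id, fun n hn =>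
    Finset.le_sup (f := id) hn⟩
  obtain ⟨Nb, hNb⟩ : ∃ Nb : ℝ, Nb = (m : ℝ) ^ 3 * (4 * (Nmax + 1)) := ⟨_, rfl⟩
  have hNb0 : 0 < Nb := by rw [hNb]; positivity
  obtain ⟨ε', hε'⟩ : ∃ ε' : ℝ, ε' = ε / ((1 + ε) * Nb) := ⟨_, rfl⟩
  have hε'0 : 0 < ε' := by rw [hε']; positivity
  refine ⟨ε', hε'0, fun C' => ?_⟩
  -- constants
  choose Cn hCn0 hCn using fun n : ℕ => hfull (n + 1) (Nat.succ_pos n)
  obtain ⟨Bs, hBs⟩ : ∃ Bs : ℝ, Bs = ∑ n ∈ NN, Cn (n - 1) := ⟨_, rfl⟩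
  have hsingle : ∀ n ∈ NN, Cn (n - 1) ≤ Bs := by
    intro n hn
    rw [hBs]
    exact Finset.single_le_sum (f := fun n => Cn (n - 1)) (fun k _ => hCn0 _) hn
  have hBs0 : 0 ≤ Bs := by
    rw [hBs]
    exact Finset.sum_nonneg fun n _ => hCn0 _
  refine ⟨(1 + ε) * ((3 + ε') * Bs * dg K + max C' 0), ?_⟩
  intro hyp x h0 h1
  have hDx0 := D_nonneg x
  have hR0 := R_nonneg x
  obtain ⟨n, hn, hnear⟩ := hNN x h0
  have hnpos := hNpos n hn
  have hnn : n - 1 + 1 = n := Nat.succ_pred_eq_of_pos hnpos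
  have hnN : (n : ℝ) ≤ Nmax := by exact_mod_cast hNmax n hn
  have key := hCn (n - 1) K x h0 h1
  rw [hnn] at key
  have hle : ε' * ((1 + ε) * ((m : ℝ) ^ 3 * (4 * n))) ≤ ε := by
    have e1 : (m : ℝ) ^ 3 * (4 * n) ≤ Nb := by
      rw [hNb]
      gcongr
      linarith
    calc ε' * ((1 + ε) * ((m : ℝ) ^ 3 * (4 * n))) ≤ ε' * ((1 + ε) * Nb) := by gcongr
      _ = ε := by rw [hε']; field_simp
  have hC := mul_le_mul_of_nonneg_right (hsingle n hn) hd.le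
  have h2 := transfer (K := K) (N := (m : ℝ) ^ 3 * (4 * n)) (C := Bs) (C' := max C' 0) (ε := ε)
    (ε' := ε') (Δ := 0) (x := x) hBs0 (by positivity) hε hε'0 hle le_rfl ?_
  · rwa [add_zero] at h2
  · rcases key with h | ⟨u0, u1, y, hy, y0, y1, ya, yc, hres⟩
    · left; linarith
    · right
      have hcl := hSn (x ^ n) hnear u0 u1
      rw [← hy] at hcl
      refine ⟨y, by linarith, by linarith, ?_⟩
      rw [add_zero]
      have e1 := hyp y y0 y1 hcl hres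
      have e2 := le_max_left C' 0
      linarith

end Pool.Agent.N757.RD
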