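import Mathlib

/-!
# Places, heights and sums over primes

Basic inequalities between the height `logHeight₁`, the absolute values at the places of a number
field and sums of `log N(p)` over sets of primes, with constants which are multiples of the degree.
-/

set_option autoImplicit false

namespace Pool.Agent.N757.RD

open NumberField IsDedekindDomain Height Real Polynomial

variable {K : Type} [Field K] [NumberField K]

/-- the degree of `K` as a real number -/
noncomputable def dg (K : Type) [Field K] [NumberField K] : ℝ := (Module.finrank ℚ K : ℝ)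

theorem dg_pos : 0 < dg K := by
  unfold dg
  exact_mod_cast Module.finrank_pos

/-- the places of `K` -/
abbrev Pl (K : Type) [Field K] [NumberField K] : Type :=
  InfinitePlace K ⊕ HeightOneSpectrum (𝓞 K)

/-- the absolute value at a place -/
noncomputable def av : Pl K → AbsoluteValue K ℝ
  | .inl w => w.val
  | .inr p => (FinitePlace.mk p).val

/-- the multiplicity of a place: `2` for complex places, `1` otherwise -/
noncomputable def mt : Pl K → ℕ
  | .inl w => w.mult
  | .inr _ => 1

theorem av_inl (w : InfinitePlace K) (x : K) : av (.inl w) x = w x := rfl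

theorem av_inr (p : HeightOneSpectrum (𝓞 K)) (x : K) : av (.inr p) x = FinitePlace.mk p x := rfl

theorem mt_pos (v : Pl K) : 0 < mt v := by
  cases v with
  | inl w => exact w.mult_pos
  | inr p => exact Nat.one_pos

theorem mt_le_dg (v : Pl K) : (mt v : ℝ) ≤ dg K := by
  cases v with
  | inl w =>
    have h1 : w.mult ≤ ∑ w : InfinitePlace K, w.mult :=
      Finset.single_le_sum (f := fun w : InfinitePlace K => w.mult) (fun _ _ => Nat.zero_le _)
        (Finset.mem_univ w)
    rw [InfinitePlace.sum_mult_eq] at h1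
    unfold dg mt
    exact_mod_cast h1
  | inr p =>
    unfold dg mt
    have : 0 < Module.finrank ℚ K := Module.finrank_pos
    exact_mod_cast this

theorem totalWeight_dg : (totalWeight K : ℝ) = dg K := by
  rw [totalWeight_eq_finrank]
  rfl

/-- the height (relative to `K`) -/
noncomputable abbrev D (x : K) : ℝ := logHeight₁ x

theorem D_nonneg (x : K) : 0 ≤ D x := zero_le_logHeight₁ x

theorem finite_supp (x : K) : (Function.support fun v : FinitePlace K => log⁺ (v x)).Finite := by
  by_cases hx : x = 0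
  · subst hx
    convert Set.finite_empty
    ext v
    simp
  · refine (FinitePlace.hasFiniteMulSupport hx).subset ?_
    intro v hv
    simp only [Function.mem_support] at hv
    intro h
    apply hv
    have h' : v x = 1 := h
    rw [h']
    simp

theorem inf_le_D (w : InfinitePlace K) (x : K) : w.mult * log⁺ (w x) ≤ D x := by
  unfold D
  rw [NumberField.logHeight₁_eq]
  have h1 : w.mult * log⁺ (w x) ≤ ∑ v : InfinitePlace K, v.mult * log⁺ (v x) :=
    Finset.single_le_sum (f := fun v : InfinitePlace K => v.mult * log⁺ (v x))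
      (fun v _ => mul_nonneg (Nat.cast_nonneg _) posLog_nonneg) (Finset.mem_univ w)
  have h2 : 0 ≤ ∑ᶠ v : FinitePlace K, log⁺ (v x) := finsum_nonneg fun v => posLog_nonneg
  linarith

theorem sum_fin_le_D (Z : Finset (HeightOneSpectrum (𝓞 K))) (x : K) :
    ∑ p ∈ Z, log⁺ (FinitePlace.mk p x) ≤ D x := by
  classical
  unfold D
  rw [NumberField.logHeight₁_eq]
  have h1 : 0 ≤ ∑ v : InfinitePlace K, v.mult * log⁺ (v x) :=
    Finset.sum_nonneg fun v _ => mul_nonneg (Nat.cast_nonneg _) posLog_nonneg
  have h2 : ∑ p ∈ Z, log⁺ (FinitePlace.mk p x) ≤ ∑ᶠ v : FinitePlace K, log⁺ (v x) := by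
    have hinj : Set.InjOn (FinitePlace.mk : HeightOneSpectrum (𝓞 K) → FinitePlace K) Z :=
      fun a _ b _ h => FinitePlace.mk_eq_iff.1 h
    rw [← Finset.sum_image (f := fun v : FinitePlace K => log⁺ (v x)) hinj]
    rw [finsum_eq_sum_of_support_subset (s := (finite_supp x).toFinset ∪ Z.image FinitePlace.mk)]
    · exact Finset.sum_le_sum_of_subset_of_nonneg Finset.subset_union_right
        fun v _ _ => posLog_nonneg
    · intro v hv
      simp only [Finset.coe_union, Set.mem_union, Set.Finite.coe_toFinset]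
      exact Or.inl hv
  linarith

theorem fin_le_D (p : HeightOneSpectrum (𝓞 K)) (x : K) : log⁺ (FinitePlace.mk p x) ≤ D x := by
  have := sum_fin_le_D {p} x
  simpa using this

theorem posLog_av_le (v : Pl K) (x : K) : mt v * log⁺ (av v x) ≤ D x := by
  cases v with
  | inl w => exact inf_le_D w x
  | inr p =>
    have := fin_le_D p x
    change ((1 : ℕ) : ℝ) * log⁺ (FinitePlace.mk p x) ≤ D x
    rw [Nat.cast_one, one_mul]
    exact this

theorem log_av_le (v : Pl K) (x : K) : mt v * Real.log (av v x) ≤ D x := by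
  refine le_trans ?_ (posLog_av_le v x)
  exact mul_le_mul_of_nonneg_left (le_max_right _ _) (Nat.cast_nonneg _)

theorem D_inv (x : K) : D x⁻¹ = D x := logHeight₁_inv x

theorem neg_log_av_le (v : Pl K) (x : K) : mt v * -Real.log (av v x) ≤ D x := by
  have := log_av_le v x⁻¹
  rwa [map_inv₀, Real.log_inv, D_inv] at this

/-- the sum of `log N(p)` over a set of primes -/
noncomputable def W (A : Set (HeightOneSpectrum (𝓞 K))) : ℝ :=
  ∑ᶠ p ∈ A, Real.log (Ideal.absNorm p.asIdeal : ℝ)

theorem logN_pos (p : HeightOneSpectrum (𝓞 K)) : 0 < Real.log (Ideal.absNorm p.asIdeal : ℝ) :=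
  Real.log_pos (by exact_mod_cast HeightOneSpectrum.one_lt_absNorm p)

theorem W_nonneg (A : Set (HeightOneSpectrum (𝓞 K))) : 0 ≤ W A :=
  finsum_nonneg fun p => finsum_nonneg fun _ => (logN_pos p).le

theorem W_eq {A : Set (HeightOneSpectrum (𝓞 K))} (hA : A.Finite) :
    W A = ∑ p ∈ hA.toFinset, Real.log (Ideal.absNorm p.asIdeal : ℝ) := by
  unfold W
  rw [finsum_mem_eq_finite_toFinset_sum _ hA]

theorem W_mono {A B : Set (HeightOneSpectrum (𝓞 K))} (h : A ⊆ B) (hB : B.Finite) : W A ≤ W B := by
  rw [W_eq (hB.subset h), W_eq hB]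
  refine Finset.sum_le_sum_of_subset_of_nonneg ?_ fun p _ _ => (logN_pos p).le
  exact Set.Finite.toFinset_subset_toFinset.2 h

theorem W_union {A B : Set (HeightOneSpectrum (𝓞 K))} (hA : A.Finite) (hB : B.Finite) :
    W (A ∪ B) ≤ W A + W B := by
  classical
  rw [W_eq hA, W_eq hB, W_eq (hA.union hB)]
  have : (hA.union hB).toFinset = hA.toFinset ∪ hB.toFinset := by
    ext p; simp
  rw [this]
  have h1 := Finset.sum_union_inter (s₁ := hA.toFinset) (s₂ := hB.toFinset)
    (f := fun p : HeightOneSpectrum (𝓞 K) => Real.log (Ideal.absNorm p.asIdeal : ℝ))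
  have h2 : 0 ≤ ∑ p ∈ hA.toFinset ∩ hB.toFinset, Real.log (Ideal.absNorm p.asIdeal : ℝ) :=
    Finset.sum_nonneg fun p _ => (logN_pos p).le
  linarith

/-- an absolute value less than one is at most `1 / N(p)` -/
theorem logN_le (p : HeightOneSpectrum (𝓞 K)) {y : K} (hy : y ≠ 0)
    (h : FinitePlace.mk p y < 1) :
    Real.log (Ideal.absNorm p.asIdeal : ℝ) ≤ Real.log (FinitePlace.mk p y⁻¹) := by
  have hN := HeightOneSpectrum.one_lt_absNorm_nnreal p
  have hN0 := HeightOneSpectrum.absNorm_ne_zero p
  have hval : FinitePlace.mk p y⁻¹ = (WithZeroMulInt.toNNReal hN0 (p.valuation K y⁻¹) : ℝ) := by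
    rw [FinitePlace.mk_apply, FinitePlace.norm_embedding']
  have hval' : FinitePlace.mk p y = (WithZeroMulInt.toNNReal hN0 (p.valuation K y) : ℝ) := by
    rw [FinitePlace.mk_apply, FinitePlace.norm_embedding']
  rw [hval'] at h
  have h1 : WithZeroMulInt.toNNReal hN0 (p.valuation K y) < 1 := by exact_mod_cast h
  have h2 : p.valuation K y < 1 := (WithZeroMulInt.toNNReal_lt_one_iff hN).1 h1
  have hv : p.valuation K y ≠ 0 := (p.valuation K).ne_zero_iff.2 hy
  have h3 : WithZero.exp (1 : ℤ) ≤ p.valuation K y⁻¹ := by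
    rw [map_inv₀]
    obtain ⟨n, hn⟩ : ∃ n : ℤ, p.valuation K y = WithZero.exp n :=
      ⟨WithZero.log (p.valuation K y), (WithZero.exp_log hv).symm⟩
    rw [hn] at h2 ⊢
    rw [← WithZero.exp_zero, WithZero.exp_lt_exp] at h2
    rw [← WithZero.exp_neg, WithZero.exp_le_exp]
    omega
  have h4 : WithZeroMulInt.toNNReal hN0 (WithZero.exp (1 : ℤ)) ≤
      WithZeroMulInt.toNNReal hN0 (p.valuation K y⁻¹) :=
    (WithZeroMulInt.toNNReal_strictMono hN).monotone h3
  have h5 : WithZeroMulInt.toNNReal hN0 (WithZero.exp (1 : ℤ)) = (Ideal.absNorm p.asIdeal : NNReal) := by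
    rw [WithZeroMulInt.toNNReal_neg_apply _ (WithZero.exp_ne_zero)]
    have : (WithZero.unzero (WithZero.exp_ne_zero (a := (1 : ℤ)))).toAdd = 1 := rfl
    rw [this, zpow_one]
  rw [hval]
  refine Real.log_le_log (by exact_mod_cast (zero_lt_one.trans (HeightOneSpectrum.one_lt_absNorm p)))
    ?_
  rw [h5] at h4
  exact_mod_cast h4

/-- the primes at which `y` has absolute value `< 1` -/
def lows (y : K) : Set (HeightOneSpectrum (𝓞 K)) := {p | FinitePlace.mk p y < 1}

theorem finite_ne_one {y : K} (hy : y ≠ 0) :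
    {p : HeightOneSpectrum (𝓞 K) | FinitePlace.mk p y ≠ 1}.Finite := by
  have h1 := FinitePlace.hasFiniteMulSupport (K := K) hy
  have h2 : Set.InjOn (FinitePlace.mk : HeightOneSpectrum (𝓞 K) → FinitePlace K)
      {p | FinitePlace.mk p y ≠ 1} := fun a _ b _ h => FinitePlace.mk_eq_iff.1 h
  refine Set.Finite.of_finite_image (h1.subset ?_) h2
  rintro _ ⟨p, hp, rfl⟩
  exact hp

theorem finite_lows {y : K} (hy : y ≠ 0) : (lows y).Finite :=
  (finite_ne_one hy).subset fun _ hp => ne_of_lt hp

/-- **Counting primes.** The sum of `log N(p)` over primes dividing `y` is at most `D y`. -/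
theorem W_lows_le {y : K} (hy : y ≠ 0) : W (lows y) ≤ D y := by
  rw [W_eq (finite_lows hy), ← D_inv y]
  refine le_trans (Finset.sum_le_sum fun p hp => ?_) (sum_fin_le_D (finite_lows hy).toFinset y⁻¹)
  rw [Set.Finite.mem_toFinset] at hp
  exact (logN_le p hy hp).trans (le_max_right _ _)

theorem W_le_of_subset_lows {A : Set (HeightOneSpectrum (𝓞 K))} {y : K} (hy : y ≠ 0)
    (h : A ⊆ lows y) : A.Finite ∧ W A ≤ D y :=
  ⟨(finite_lows hy).subset h, (W_mono h (finite_lows hy)).trans (W_lows_le hy)⟩

/-! ### Heights of polynomial values -/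

theorem D_intCast_le (n : ℤ) (hn : n ≠ 0) : D (n : K) ≤ dg K * Real.log |(n : ℝ)| := by
  unfold D
  rw [NumberField.logHeight₁_eq]
  have h1 : ∑ᶠ v : FinitePlace K, log⁺ (v (n : K)) = 0 := by
    rw [← finsum_zero (α := FinitePlace K)]
    refine finsum_congr fun v => ?_
    rw [posLog_eq_zero_iff]
    rw [← FinitePlace.norm_embedding_eq, abs_norm, FinitePlace.norm_embedding]
    exact HeightOneSpectrum.adicAbv_intCast_le_one K _ n
  rw [h1, add_zero]
  have h2 : ∀ v : InfinitePlace K, (v.mult : ℝ) * log⁺ (v (n : K)) =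
      v.mult * Real.log |(n : ℝ)| := by
    intro v
    have : v (n : K) = |(n : ℝ)| := by
      rw [← InfinitePlace.norm_embedding_eq, map_intCast]
      exact Complex.norm_intCast n
    rw [this, posLog_eq_log]
    rw [abs_abs]
    exact_mod_cast Int.one_le_abs hn
  rw [Finset.sum_congr rfl fun v _ => h2 v, ← Finset.sum_mul]
  have h3 : (∑ v : InfinitePlace K, (v.mult : ℝ)) = dg K := by
    unfold dg
    rw [← InfinitePlace.sum_mult_eq]
    push_cast
    rfl
  rw [h3]

end Pool.Agent.N757.RD
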