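import Pool.Agent.N757.RD.Select

/-!
# Pushing points to the cusps at finitely many places
-/

set_option autoImplicit false

namespace Pool.Agent.N757.RD

open NumberField IsDedekindDomain Height Real Polynomial

/-! ### Continuity of the maps at the cusps -/

section Cont

variable {K : Type} [Field K] (α : AbsoluteValue K ℝ)

/-- close to one of the points `0`, `1`, `∞` -/
def Near (δ : ℝ) (x : K) : Prop := α x < δ ∨ α (1 - x) < δ ∨ 1 < δ * α x

theorem abv_sub_le (x y : K) : α (x - y) ≤ α x + α y := by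
  have := α.sub_le x 0 y
  rwa [sub_zero, zero_sub, α.map_neg] at this

theorem abv_four_le : α 4 ≤ 4 := by
  have h1 : α (1 + 1) ≤ 1 + 1 := (α.add_le 1 1).trans (by rw [α.map_one])
  have h2 : (4 : K) = (1 + 1) * (1 + 1) := by norm_num
  rw [h2, α.map_mul]
  nlinarith [α.nonneg (1 + 1)]

theorem q_zero {δ : ℝ} {x : K} (h1 : α x < 1) (h2 : α x < δ / 8) : α (q x) < δ := by
  unfold q
  rw [α.map_mul, α.map_mul]
  have h3 : α (1 - x) ≤ 2 := by
    have := abv_sub_le α 1 x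
    rw [α.map_one] at this
    linarith
  have h4 := abv_four_le α
  have h5 := α.nonneg x
  have h6 := α.nonneg (1 - x)
  have h7 := α.nonneg (4 : K)
  calc α 4 * α x * α (1 - x) ≤ 4 * α x * 2 := by gcongr
    _ < δ := by linarith

theorem q_one {δ : ℝ} {x : K} (h1 : α (1 - x) < 1) (h2 : α (1 - x) < δ / 8) :
    α (q x) < δ := by
  have : q x = q (1 - x) := by unfold q; ring
  rw [this]
  exact q_zero α h1 h2

theorem q_infty {δ : ℝ} (h4 : 0 < α 4) {x : K} (h1 : 2 < α x)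
    (h2 : 1 < δ * (α 4 * α x)) : 1 < δ * α (q x) := by
  unfold q
  rw [α.map_mul, α.map_mul]
  have h3 : 1 ≤ α (1 - x) := by
    have := abv_sub_le α 1 (1 - x)
    rw [sub_sub_cancel, α.map_one] at this
    linarith
  have hδ : 0 < δ := by
    by_contra h
    push Not at h
    have : 0 < α 4 * α x := by positivity
    nlinarith
  have h5 : 0 < δ * (α 4 * α x) := by positivity
  nlinarith

/-- the map `z / (z - 1)` -/
def wm (z : K) : K := (1 - z⁻¹)⁻¹

theorem wm_eq {z : K} (h0 : z ≠ 0) (h1 : z ≠ 1) : wm z = z / (z - 1) := by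
  unfold wm
  have : z - 1 ≠ 0 := sub_ne_zero.2 h1
  field_simp

theorem wm_zero {δ : ℝ} {z : K} (h0 : z ≠ 0) (h1 : z ≠ 1) (h2 : α z < 1 / 2)
    (h3 : α z < δ / 2) : α (wm z) < δ := by
  rw [wm_eq h0 h1, map_div₀]
  have h4 : 1 / 2 ≤ α (z - 1) := by
    have := abv_sub_le α z (z - 1)
    rw [sub_sub_cancel, α.map_one] at this
    linarith
  rw [div_lt_iff₀ (by linarith)]
  have h5 := α.nonneg z
  have hδ : 0 < δ := by linarith
  nlinarith

theorem wm_infty {δ : ℝ} (hδ : 0 < δ) {z : K} (h0 : z ≠ 0) (h1 : z ≠ 1) (h2 : 1 + 1 / δ < α z) :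
    α (1 - wm z) < δ := by
  have hz : z - 1 ≠ 0 := sub_ne_zero.2 h1
  have e : 1 - wm z = -(z - 1)⁻¹ := by
    rw [wm_eq h0 h1]
    field_simp
    ring
  rw [e, α.map_neg, map_inv₀]
  have h4 : α z ≤ 1 + α (z - 1) := by
    have := α.add_le (z - 1) 1
    rw [sub_add_cancel, α.map_one] at this
    linarith
  have h5 : 1 / δ < α (z - 1) := by linarith
  exact inv_lt_of_inv_lt₀ hδ (by rwa [one_div] at h5)

/-- `q ∘ wm ∘ q` maps neighbourhoods of all cusps to a neighbourhood of `0` -/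
theorem qwq_near (h4 : 0 < α 4) {δ : ℝ} (hδ : 0 < δ) : ∃ δ' : ℝ, 0 < δ' ∧ ∀ x : K,
    Near α δ' x → q x ≠ 0 → q x ≠ 1 → α (q (wm (q x))) < δ := by
  -- target for `wm (q x)` : within `δ1` of `0` or of `1`
  set δ1 : ℝ := min 1 (δ / 8) with hδ1
  have hδ1p : 0 < δ1 := lt_min one_pos (by positivity)
  -- target for `q x`
  set δ2 : ℝ := min (1 / 2) (δ1 / 2) with hδ2
  have hδ2p : 0 < δ2 := lt_min (by norm_num) (by positivity)
  set δ3 : ℝ := 1 / (1 + 1 / δ1) with hδ3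
  have hδ3p : 0 < δ3 := by positivity
  set δ4 : ℝ := min (min 1 (δ2 / 8)) (min (1 / 2) (δ3 * α 4)) with hδ4
  have hδ4p : 0 < δ4 := lt_min (lt_min one_pos (by positivity)) (lt_min (by norm_num) (by positivity))
  have e1 : δ4 ≤ 1 := (min_le_left _ _).trans (min_le_left _ _)
  have e2 : δ4 ≤ δ2 / 8 := (min_le_left _ _).trans (min_le_right _ _)
  have e3 : δ4 ≤ 1 / 2 := (min_le_right _ _).trans (min_le_left _ _)
  have e4 : δ4 ≤ δ3 * α 4 := (min_le_right _ _).trans (min_le_right _ _)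
  refine ⟨δ4, hδ4p, fun x hx h0 h1 => ?_⟩
  have key : α (q x) < δ2 ∨ 1 < δ3 * α (q x) := by
    rcases hx with h | h | h
    · left
      exact q_zero α (by linarith) (by linarith)
    · left
      exact q_one α (by linarith) (by linarith)
    · right
      have h5 := α.nonneg x
      refine q_infty α h4 ?_ ?_
      · nlinarith
      · have : δ4 * α x ≤ δ3 * α 4 * α x := mul_le_mul_of_nonneg_right e4 h5
        linarith
  rcases key with h | h
  · have h5 : α (wm (q x)) < δ1 := by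
      refine wm_zero α h0 h1 ?_ ?_
      · exact h.trans_le (min_le_left _ _)
      · exact h.trans_le (min_le_right _ _)
    exact q_zero α (h5.trans_le (min_le_left _ _)) (h5.trans_le (min_le_right _ _))
  · have h5 : α (1 - wm (q x)) < δ1 := by
      refine wm_infty α hδ1p h0 h1 ?_
      rw [hδ3, one_div, inv_mul_eq_div, lt_div_iff₀ (by positivity)] at h
      linarith
    exact q_one α (h5.trans_le (min_le_left _ _)) (h5.trans_le (min_le_right _ _))

theorem geom_abv_le (u : K) (hu : α u ≤ 2) (n : ℕ) : α (∑ i ∈ Finset.range n, u ^ i) ≤ 2 ^ n := by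
  induction n with
  | zero => simp
  | succ n ih =>
    rw [Finset.sum_range_succ]
    refine (α.add_le _ _).trans ?_
    rw [map_pow]
    have : α u ^ n ≤ 2 ^ n := pow_le_pow_left₀ (α.nonneg u) hu n
    rw [pow_succ]
    linarith

theorem F_near (n : ℕ) (hn : 0 < n) {δ : ℝ} (hδ : 0 < δ) : ∃ δ' : ℝ, 0 < δ' ∧ ∀ x : K,
    α x < δ' → α (F n x) < δ := by
  set δ1 : ℝ := min 1 (min δ 1 / 2 / 2 ^ n / 2) with hδ1
  have hp : (0 : ℝ) < 2 ^ n := by positivity
  have hm : 0 < min δ 1 := lt_min hδ one_pos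
  have hδ1p : 0 < δ1 := lt_min one_pos (by positivity)
  refine ⟨δ1, hδ1p, fun x hx => ?_⟩
  have hx0 := α.nonneg x
  have e1 : α x < 1 := hx.trans_le (min_le_left _ _)
  have e2 : α x < min δ 1 / 2 / 2 ^ n / 2 := hx.trans_le (min_le_right _ _)
  have e3 : α (x ^ n) ≤ α x := by
    rw [map_pow]
    exact pow_le_of_le_one hx0 e1.le hn.ne'
  set u : K := 1 - x ^ n with hu
  have hu2 : α u ≤ 2 := by
    have := abv_sub_le α 1 (x ^ n)
    rw [α.map_one] at this
    linarith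
  have h1 : (1 : K) - u ^ n = (1 - u) * ∑ i ∈ Finset.range n, u ^ i := by
    have := mul_geom_sum u n
    linear_combination this
  have h2 : α (1 - u ^ n) ≤ min δ 1 / 4 := by
    rw [h1, α.map_mul]
    have h3 : (1 : K) - u = x ^ n := by rw [hu]; ring
    rw [h3]
    have h4 := geom_abv_le α u hu2 n
    have h5 := α.nonneg (∑ i ∈ Finset.range n, u ^ i)
    calc α (x ^ n) * α (∑ i ∈ Finset.range n, u ^ i) ≤ α x * 2 ^ n := by gcongr
      _ ≤ (min δ 1 / 2 / 2 ^ n / 2) * 2 ^ n := by gcongr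
      _ = min δ 1 / 4 := by field_simp; norm_num
  have h3 : 1 / 2 ≤ α (u ^ n) := by
    have := abv_sub_le α (u ^ n) (-(1 - u ^ n))
    have e : u ^ n - -(1 - u ^ n) = 1 := by ring
    rw [e, α.map_one, α.map_neg] at this
    have : min δ 1 ≤ 1 := min_le_right _ _
    linarith
  have h4 : α (1 - (u ^ n)⁻¹) ≤ min δ 1 / 2 := by
    have hne : u ^ n ≠ 0 := by
      intro h
      rw [h, map_zero] at h3
      linarith
    have e : 1 - (u ^ n)⁻¹ = -((1 - u ^ n) / u ^ n) := by field_simp; ring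
    rw [e, α.map_neg, map_div₀, div_le_iff₀ (by linarith)]
    nlinarith
  have h5 : α (F n x) = α (1 - (u ^ n)⁻¹) ^ n := by
    unfold F
    rw [map_pow]
  rw [h5]
  have h6 := α.nonneg (1 - (u ^ n)⁻¹)
  have h7 : min δ 1 ≤ 1 := min_le_right _ _
  have h8 : min δ 1 ≤ δ := min_le_left _ _
  have h9 : α (1 - (u ^ n)⁻¹) ^ n ≤ α (1 - (u ^ n)⁻¹) := pow_le_of_le_one h6 (by linarith) hn.ne'
  linarith

end Cont

/-! ### Recurrence -/

theorem recurrence {W : Type} [Fintype W] (z : W → ℂ) (n0 k0 : ℕ) (hn0 : 0 < n0) {δ : ℝ}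
    (hδ : 0 < δ) : ∃ n : ℕ, n0 ∣ n ∧ k0 ≤ n ∧ 0 < n ∧ ∀ w, ‖z w‖ = 1 → ‖1 - z w ^ n‖ < δ := by
  classical
  set a : ℕ → (W → ℂ) := fun k w => if ‖z w‖ = 1 then z w ^ (n0 * k) else 1 with ha
  have hbd : ∀ k, a k ∈ Metric.closedBall (0 : W → ℂ) 1 := by
    intro k
    rw [mem_closedBall_zero_iff, pi_norm_le_iff_of_nonneg zero_le_one]
    intro w
    simp only [ha]
    split_ifs with h
    · rw [norm_pow, h, one_pow]
    · simp
  obtain ⟨b, -, φ, hφ, hlim⟩ := tendsto_subseq_of_bounded Metric.isBounded_closedBall hbd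
  have hcau := hlim.cauchySeq
  rw [Metric.cauchySeq_iff] at hcau
  obtain ⟨N, hN⟩ := hcau δ hδ
  obtain ⟨j, hj⟩ : ∃ j, N ≤ j ∧ φ N + k0 + 1 ≤ φ j := by
    refine ⟨N + (φ N + k0 + 1), by omega, ?_⟩
    have := hφ.id_le (N + (φ N + k0 + 1))
    simp only [id] at this
    omega
  refine ⟨n0 * (φ j - φ N), dvd_mul_right _ _, ?_, ?_, ?_⟩
  · have : φ j - φ N ≤ n0 * (φ j - φ N) := Nat.le_mul_of_pos_left _ hn0
    omega
  · have : 0 < φ j - φ N := by omega
    positivity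
  · intro w hw
    have h1 := hN j hj.1 N le_rfl
    have h2 : dist (a (φ j) w) (a (φ N) w) < δ := (dist_le_pi_dist _ _ w).trans_lt h1
    simp only [ha, if_pos hw] at h2
    have h3 : z w ^ (n0 * φ j) = z w ^ (n0 * φ N) * z w ^ (n0 * (φ j - φ N)) := by
      rw [← pow_add, ← mul_add]
      congr 2
      omega
    rw [dist_comm, dist_eq_norm, h3] at h2
    have h4 : z w ^ (n0 * φ N) - z w ^ (n0 * φ N) * z w ^ (n0 * (φ j - φ N)) =
        z w ^ (n0 * φ N) * (1 - z w ^ (n0 * (φ j - φ N))) := by ring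
    rw [h4, norm_mul, norm_pow, hw, one_pow, one_mul] at h2
    exact h2

/-- the condition on complex numbers -/
def CNear (δ : ℝ) (z : ℂ) : Prop := ‖z‖ < δ ∨ ‖1 - z‖ < δ ∨ 1 < δ * ‖z‖

theorem point_near {W : Type} [Fintype W] (z : W → ℂ) (n0 m1 : ℕ) (hn0 : 0 < n0) {δ : ℝ}
    (hδ : 0 < δ) : ∃ n : ℕ, n0 ∣ n ∧ m1 ≤ n ∧ 0 < n ∧ ∀ w, CNear δ (z w ^ n) := by
  classical
  have h1 : ∀ w, ∃ k : ℕ, ∀ n, k ≤ n → ‖z w‖ ≠ 1 → CNear δ (z w ^ n) := by
    intro w
    rcases lt_trichotomy ‖z w‖ 1 with h | h | h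
    · obtain ⟨k, hk⟩ := exists_pow_lt_of_lt_one hδ h
      refine ⟨k, fun n hn _ => Or.inl ?_⟩
      rw [norm_pow]
      exact (pow_le_pow_of_le_one (norm_nonneg _) h.le hn).trans_lt hk
    · exact ⟨0, fun n _ h' => absurd h h'⟩
    · obtain ⟨k, hk⟩ := pow_unbounded_of_one_lt (1 / δ) h
      refine ⟨k, fun n hn _ => Or.inr (Or.inr ?_)⟩
      rw [norm_pow]
      have h2 : ‖z w‖ ^ k ≤ ‖z w‖ ^ n := pow_le_pow_right₀ h.le hn
      rw [div_lt_iff₀ hδ] at hk
      nlinarith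
  choose k hk using h1
  obtain ⟨n, hn, hkn, hpos, hrec⟩ := recurrence z n0 (m1 + ∑ w, k w) hn0 hδ
  refine ⟨n, hn, by omega, hpos, fun w => ?_⟩
  by_cases hw : ‖z w‖ = 1
  · exact Or.inr (Or.inl (hrec w hw))
  · refine hk w n ?_ hw
    have : k w ≤ ∑ w, k w := Finset.single_le_sum (fun _ _ => Nat.zero_le _) (Finset.mem_univ w)
    omega

theorem all_near (W : Type) [Fintype W] (n0 : ℕ) (hn0 : 0 < n0) {δ : ℝ} (hδ : 0 < δ) :
    ∃ N : Finset ℕ, (∀ n ∈ N, n0 ∣ n ∧ 0 < n) ∧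
      ∀ z : W → ℂ, ∃ n ∈ N, ∀ w, CNear δ (z w ^ n) := by
  classical
  obtain ⟨m1, hm1⟩ := exists_pow_lt_of_lt_one hδ (by norm_num : (1 / 2 : ℝ) < 1)
  set A : Set ℂ := {z | 1 / 2 ≤ ‖z‖ ∧ ‖z‖ ≤ 2} with hA
  have hAc : IsCompact A := by
    have h1 : A ⊆ Metric.closedBall 0 2 := by
      intro z hz
      rw [mem_closedBall_zero_iff]
      exact hz.2
    refine (isCompact_closedBall (0 : ℂ) 2).of_isClosed_subset ?_ h1
    exact (isClosed_le continuous_const continuous_norm).inter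
      (isClosed_le continuous_norm continuous_const)
  set X : Set (W → ℂ) := Set.univ.pi fun _ => A with hX
  have hXc : IsCompact X := isCompact_univ_pi fun _ => hAc
  set U : ℕ → Set (W → ℂ) := fun n => {z | (n0 ∣ n ∧ m1 ≤ n ∧ 0 < n) ∧ ∀ w, CNear δ (z w ^ n)}
    with hU
  have hUo : ∀ n, IsOpen (U n) := by
    intro n
    by_cases hn : n0 ∣ n ∧ m1 ≤ n ∧ 0 < n
    · have : U n = ⋂ w, {z : W → ℂ | CNear δ (z w ^ n)} := by
        ext z
        simp only [hU, Set.mem_ofPred_eq, hn, true_and, Set.mem_iInter, and_self]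
      rw [this]
      refine isOpen_iInter_of_finite fun w => ?_
      have hc : Continuous fun z : W → ℂ => z w ^ n := (continuous_apply w).pow n
      have e : {z : W → ℂ | CNear δ (z w ^ n)} = {z | ‖z w ^ n‖ < δ} ∪
          ({z | ‖1 - z w ^ n‖ < δ} ∪ {z | 1 < δ * ‖z w ^ n‖}) := rfl
      rw [e]
      exact (isOpen_lt hc.norm continuous_const).union
        ((isOpen_lt (continuous_const.sub hc).norm continuous_const).union
          (isOpen_lt continuous_const (continuous_const.mul hc.norm)))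
    · have : U n = ∅ := by
        ext z
        simp only [hU, Set.mem_ofPred_eq, hn, false_and, Set.mem_empty_iff_false]
      rw [this]
      exact isOpen_empty
  have hcov : X ⊆ ⋃ n, U n := by
    intro z _
    obtain ⟨n, h1, h2, h3, h4⟩ := point_near z n0 m1 hn0 hδ
    exact Set.mem_iUnion.2 ⟨n, ⟨h1, h2, h3⟩, h4⟩
  obtain ⟨t, ht⟩ := hXc.elim_finite_subcover U hUo hcov
  refine ⟨t.filter fun n => n0 ∣ n ∧ m1 ≤ n ∧ 0 < n, ?_, ?_⟩
  · intro n hn
    have := (Finset.mem_filter.1 hn).2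
    exact ⟨this.1, this.2.2⟩
  · intro z
    set z' : W → ℂ := fun w => if ‖z w‖ < 1 / 2 then (1 / 2 : ℂ) else if 2 < ‖z w‖ then 2 else z w
      with hz'
    have hz'X : z' ∈ X := by
      rw [hX, Set.mem_univ_pi]
      intro w
      simp only [hz', hA, Set.mem_ofPred_eq]
      split_ifs with h1 h2
      · norm_num
      · norm_num
      · exact ⟨not_lt.1 h1, not_lt.1 h2⟩
    obtain ⟨n, hnt, hzn⟩ := Set.mem_iUnion₂.1 (ht hz'X)
    obtain ⟨hcond, hnear⟩ := hzn
    refine ⟨n, Finset.mem_filter.2 ⟨hnt, hcond⟩, fun w => ?_⟩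
    have hnw := hnear w
    simp only [hz'] at hnw
    have hpow : (1 / 2 : ℝ) ^ n < δ :=
      (pow_le_pow_of_le_one (by norm_num) (by norm_num) hcond.2.1).trans_lt hm1
    split_ifs at hnw with h1 h2
    · left
      rw [norm_pow]
      exact (pow_le_pow_left₀ (norm_nonneg _) h1.le n).trans_lt hpow
    · right; right
      rw [norm_pow]
      have h3 : (2 : ℝ) ^ n ≤ ‖z w‖ ^ n := pow_le_pow_left₀ (by norm_num) h2.le n
      have h4 : (1 / 2 : ℝ) ^ n * 2 ^ n = 1 := by rw [← mul_pow]; norm_num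
      have h5 : (0 : ℝ) < 2 ^ n := by positivity
      nlinarith
    · exact hnw

end Pool.Agent.N757.RD
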