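import Pool.Agent.N757.RD.Basic

/-!
# Heights and local sizes of values of integral polynomials
-/

set_option autoImplicit false

namespace Pool.Agent.N757.RD

open NumberField IsDedekindDomain Height Real Polynomial

/-- the sum of the absolute values of the coefficients, at least one -/
noncomputable def nrm (P : ℤ[X]) : ℝ :=
  max 1 (∑ i ∈ Finset.range (P.natDegree + 1), |(P.coeff i : ℝ)|)

theorem one_le_nrm (P : ℤ[X]) : 1 ≤ nrm P := le_max_left _ _

theorem nrm_pos (P : ℤ[X]) : 0 < nrm P := zero_lt_one.trans_le (one_le_nrm P)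

theorem log_nrm_nonneg (P : ℤ[X]) : 0 ≤ Real.log (nrm P) := Real.log_nonneg (one_le_nrm P)

variable {K : Type} [Field K] [NumberField K]

omit [NumberField K] in
theorem inf_aeval_le (w : InfinitePlace K) (x : K) (P : ℤ[X]) :
    w (aeval x P) ≤ nrm P * max 1 (w x) ^ P.natDegree := by
  rw [aeval_eq_sum_range]
  have h0 : (1 : ℝ) ≤ max 1 (w x) := le_max_left _ _
  have h1 : w (∑ i ∈ Finset.range (P.natDegree + 1), P.coeff i • x ^ i) ≤
      ∑ i ∈ Finset.range (P.natDegree + 1), w (P.coeff i • x ^ i) := by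
    have := w.val.sum_le (Finset.range (P.natDegree + 1)) (fun i => P.coeff i • x ^ i)
    exact this
  refine h1.trans ?_
  have h2 : ∀ i ∈ Finset.range (P.natDegree + 1), w (P.coeff i • x ^ i) ≤
      |(P.coeff i : ℝ)| * max 1 (w x) ^ P.natDegree := by
    intro i hi
    rw [zsmul_eq_mul, map_mul, map_pow]
    have h3 : w ((P.coeff i : ℤ) : K) = |(P.coeff i : ℝ)| := by
      rw [← InfinitePlace.norm_embedding_eq, map_intCast]
      exact Complex.norm_intCast _
    rw [h3]
    refine mul_le_mul_of_nonneg_left ?_ (abs_nonneg _)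
    calc w x ^ i ≤ max 1 (w x) ^ i := pow_le_pow_left₀ (apply_nonneg _ _) (le_max_right _ _) _
      _ ≤ max 1 (w x) ^ P.natDegree := pow_le_pow_right₀ h0 (by
        have := Finset.mem_range.1 hi; omega)
  refine (Finset.sum_le_sum h2).trans ?_
  rw [← Finset.sum_mul]
  exact mul_le_mul_of_nonneg_right (le_max_right _ _) (by positivity)

theorem fin_intCast_le (p : HeightOneSpectrum (𝓞 K)) (n : ℤ) :
    FinitePlace.mk p (n : K) ≤ 1 := by
  rw [FinitePlace.mk_apply, FinitePlace.norm_embedding]
  exact HeightOneSpectrum.adicAbv_intCast_le_one K _ n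

theorem fin_add_le (p : HeightOneSpectrum (𝓞 K)) (x y : K) :
    FinitePlace.mk p (x + y) ≤ max (FinitePlace.mk p x) (FinitePlace.mk p y) := by
  simp only [FinitePlace.mk_apply, FinitePlace.norm_embedding]
  exact HeightOneSpectrum.adicAbv_add_le_max K _ x y

theorem fin_sum_le (p : HeightOneSpectrum (𝓞 K)) {ι : Type} (s : Finset ι) (f : ι → K) {B : ℝ}
    (hB : 0 ≤ B) (h : ∀ i ∈ s, FinitePlace.mk p (f i) ≤ B) :
    FinitePlace.mk p (∑ i ∈ s, f i) ≤ B := by
  classical
  induction s using Finset.induction_on with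
  | empty => simpa using hB
  | insert a s ha ih =>
    rw [Finset.sum_insert ha]
    refine (fin_add_le p _ _).trans (max_le (h a (Finset.mem_insert_self _ _)) (ih fun i hi => ?_))
    exact h i (Finset.mem_insert_of_mem hi)

theorem fin_aeval_le (p : HeightOneSpectrum (𝓞 K)) (x : K) (P : ℤ[X]) :
    FinitePlace.mk p (aeval x P) ≤ max 1 (FinitePlace.mk p x) ^ P.natDegree := by
  rw [aeval_eq_sum_range]
  have h0 : (1 : ℝ) ≤ max 1 (FinitePlace.mk p x) := le_max_left _ _
  refine fin_sum_le p _ _ (by positivity) fun i hi => ?_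
  rw [zsmul_eq_mul, map_mul, map_pow]
  calc FinitePlace.mk p ((P.coeff i : ℤ) : K) * FinitePlace.mk p x ^ i
      ≤ 1 * max 1 (FinitePlace.mk p x) ^ i := by
        refine mul_le_mul (fin_intCast_le p _) ?_ (by positivity) zero_le_one
        exact pow_le_pow_left₀ (apply_nonneg _ _) (le_max_right _ _) _
    _ = max 1 (FinitePlace.mk p x) ^ i := one_mul _
    _ ≤ max 1 (FinitePlace.mk p x) ^ P.natDegree := pow_le_pow_right₀ h0 (by
        have := Finset.mem_range.1 hi; omega)

theorem log_max_one (a : ℝ) (ha : 0 ≤ a) : Real.log (max 1 a) = log⁺ a := by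
  rw [posLog_eq_log_max_one ha]

/-- **Height of polynomial values.** -/
theorem D_aeval_le (x : K) (P : ℤ[X]) :
    D (aeval x P) ≤ P.natDegree * D x + Real.log (nrm P) * dg K := by
  unfold D
  rw [NumberField.logHeight₁_eq, NumberField.logHeight₁_eq]
  have h1 : ∀ w : InfinitePlace K, (w.mult : ℝ) * log⁺ (w (aeval x P)) ≤
      P.natDegree * (w.mult * log⁺ (w x)) + Real.log (nrm P) * w.mult := by
    intro w
    have h2 : log⁺ (w (aeval x P)) ≤ Real.log (nrm P) + P.natDegree * log⁺ (w x) := by
      rw [← log_max_one _ (apply_nonneg _ _), ← log_max_one (w x) (apply_nonneg _ _)]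
      have h3 : (0:ℝ) < max 1 (w x) := lt_max_of_lt_left one_pos
      rw [← Real.log_pow, ← Real.log_mul (nrm_pos P).ne' (by positivity)]
      refine Real.log_le_log (lt_max_of_lt_left one_pos) (max_le ?_ (inf_aeval_le w x P))
      have h4 : (1:ℝ) ≤ max 1 (w x) ^ P.natDegree := one_le_pow₀ (le_max_left _ _)
      nlinarith [one_le_nrm P]
    nlinarith [(Nat.cast_nonneg w.mult : (0:ℝ) ≤ w.mult)]
  have h5 : ∑ w : InfinitePlace K, (w.mult : ℝ) * log⁺ (w (aeval x P)) ≤
      P.natDegree * (∑ w : InfinitePlace K, (w.mult : ℝ) * log⁺ (w x)) +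
        Real.log (nrm P) * dg K := by
    refine (Finset.sum_le_sum fun w _ => h1 w).trans (le_of_eq ?_)
    rw [Finset.sum_add_distrib, ← Finset.mul_sum, ← Finset.mul_sum]
    congr 2
    unfold dg
    rw [← InfinitePlace.sum_mult_eq]
    push_cast
    rfl
  have h6 : ∑ᶠ v : FinitePlace K, log⁺ (v (aeval x P)) ≤
      P.natDegree * ∑ᶠ v : FinitePlace K, log⁺ (v x) := by
    rw [← smul_eq_mul, smul_finsum']
    · refine finsum_le_finsum' (finite_supp _) ?_ ?_
      · refine (finite_supp x).subset ?_
        intro v hv h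
        apply hv
        simp only [smul_eq_mul]
        have h' : log⁺ (v x) = 0 := h
        rw [h', mul_zero]
      · intro v
        simp only [smul_eq_mul]
        rw [← log_max_one _ (apply_nonneg _ _), ← log_max_one (v x) (apply_nonneg _ _)]
        have h3 : (0:ℝ) < max 1 (v x) := lt_max_of_lt_left one_pos
        rw [← Real.log_pow]
        refine Real.log_le_log (lt_max_of_lt_left one_pos) (max_le ?_ ?_)
        · exact one_le_pow₀ (le_max_left _ _)
        · have := fin_aeval_le v.maximalIdeal x P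
          rwa [FinitePlace.mk_maximalIdeal] at this
    · exact finite_supp x
  linarith

/-- Bezout relations and local sizes: if `A P + B Q = c ≠ 0`, the values of `P` and `Q` at `x` are
not both small. -/
theorem local_sep {P Q A B : ℤ[X]} {c : ℤ} (hc : c ≠ 0) (h : A * P + B * Q = C c) :
    ∃ C₀ : ℝ, 0 ≤ C₀ ∧ ∀ (K : Type) [Field K] [NumberField K] (x : K) (v : Pl K),
      (match v with | .inl w => w x ≤ 2 | .inr p => FinitePlace.mk p x ≤ 1) →
      aeval x P ≠ 0 → aeval x Q ≠ 0 →
      mt v * -Real.log (av v (aeval x P)) ≤ C₀ * dg K ∨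
        mt v * -Real.log (av v (aeval x Q)) ≤ C₀ * dg K := by
  set M : ℝ := nrm A * 2 ^ A.natDegree + nrm B * 2 ^ B.natDegree with hM
  have hM1 : 1 ≤ M := by
    have h1 : (1:ℝ) ≤ 2 ^ A.natDegree := one_le_pow₀ (by norm_num)
    have h2 : (0:ℝ) ≤ nrm B * 2 ^ B.natDegree := by have := nrm_pos B; positivity
    nlinarith [one_le_nrm A]
  have hM0 : 0 < M := by linarith
  refine ⟨max (Real.log M) (Real.log |(c : ℝ)|), le_max_of_le_left (Real.log_nonneg hM1), ?_⟩
  intro K _ _ x v hv hP hQ
  have hd := dg_pos (K := K)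
  have key : (aeval x A) * (aeval x P) + (aeval x B) * (aeval x Q) = (c : K) := by
    have := congrArg (aeval x) h
    simpa using this
  cases v with
  | inl w =>
    simp only at hv
    have hmax : max 1 (w x) ≤ 2 := max_le (by norm_num) hv
    have hA : w (aeval x A) ≤ nrm A * 2 ^ A.natDegree := by
      refine (inf_aeval_le w x A).trans (mul_le_mul_of_nonneg_left ?_ (nrm_pos A).le)
      exact pow_le_pow_left₀ (le_max_of_le_left zero_le_one) hmax _
    have hB : w (aeval x B) ≤ nrm B * 2 ^ B.natDegree := by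
      refine (inf_aeval_le w x B).trans (mul_le_mul_of_nonneg_left ?_ (nrm_pos B).le)
      exact pow_le_pow_left₀ (le_max_of_le_left zero_le_one) hmax _
    have hcw : (1:ℝ) ≤ w ((c : ℤ) : K) := by
      rw [← InfinitePlace.norm_embedding_eq, map_intCast, Complex.norm_intCast]
      exact_mod_cast Int.one_le_abs hc
    have hsum : w ((c : ℤ) : K) ≤ w (aeval x A) * w (aeval x P) + w (aeval x B) * w (aeval x Q) := by
      have h1 := w.val.add_le (aeval x A * aeval x P) (aeval x B * aeval x Q)
      rw [w.val.map_mul, w.val.map_mul, key] at h1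
      exact h1
    have hPp : 0 < w (aeval x P) := w.pos_iff.2 hP
    have hQp : 0 < w (aeval x Q) := w.pos_iff.2 hQ
    have hor : 1 / M ≤ w (aeval x P) ∨ 1 / M ≤ w (aeval x Q) := by
      by_contra hcon
      push Not at hcon
      have h3 : w (aeval x A) * w (aeval x P) + w (aeval x B) * w (aeval x Q) < 1 := by
        have h4 : w (aeval x A) * w (aeval x P) ≤ nrm A * 2 ^ A.natDegree * w (aeval x P) :=
          mul_le_mul_of_nonneg_right hA hPp.le
        have h5 : w (aeval x B) * w (aeval x Q) ≤ nrm B * 2 ^ B.natDegree * w (aeval x Q) :=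
          mul_le_mul_of_nonneg_right hB hQp.le
        have ha : 0 < nrm A * 2 ^ A.natDegree := by have := nrm_pos A; positivity
        have hb : 0 < nrm B * 2 ^ B.natDegree := by have := nrm_pos B; positivity
        have h6 : nrm A * 2 ^ A.natDegree * w (aeval x P) < nrm A * 2 ^ A.natDegree * (1 / M) :=
          mul_lt_mul_of_pos_left hcon.1 ha
        have h7 : nrm B * 2 ^ B.natDegree * w (aeval x Q) < nrm B * 2 ^ B.natDegree * (1 / M) :=
          mul_lt_mul_of_pos_left hcon.2 hb
        have h8 : nrm A * 2 ^ A.natDegree * (1 / M) + nrm B * 2 ^ B.natDegree * (1 / M) = 1 := by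
          rw [← add_mul, ← hM, mul_one_div, div_self hM0.ne']
        linarith
      linarith
    have fin : ∀ z : ℝ, 1 / M ≤ z → (w.mult : ℝ) * -Real.log z ≤
        max (Real.log M) (Real.log |(c : ℝ)|) * dg K := by
      intro z hz
      have h9 : -Real.log z ≤ Real.log M := by
        have := Real.log_le_log (by positivity) hz
        rw [one_div, Real.log_inv] at this
        linarith
      have h10 : (w.mult : ℝ) ≤ dg K := mt_le_dg (.inl w)
      have h11 := Real.log_nonneg hM1
      calc (w.mult : ℝ) * -Real.log z ≤ w.mult * Real.log M :=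
            mul_le_mul_of_nonneg_left h9 (Nat.cast_nonneg _)
        _ ≤ dg K * Real.log M := mul_le_mul_of_nonneg_right h10 h11
        _ = Real.log M * dg K := mul_comm _ _
        _ ≤ _ := mul_le_mul_of_nonneg_right (le_max_left _ _) hd.le
    rcases hor with h' | h'
    · exact Or.inl (fin _ h')
    · exact Or.inr (fin _ h')
  | inr p =>
    simp only at hv
    have hmax : max 1 (FinitePlace.mk p x) = 1 := max_eq_left hv
    have hA : FinitePlace.mk p (aeval x A) ≤ 1 := by
      have := fin_aeval_le p x A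
      rwa [hmax, one_pow] at this
    have hB : FinitePlace.mk p (aeval x B) ≤ 1 := by
      have := fin_aeval_le p x B
      rwa [hmax, one_pow] at this
    have hsum : FinitePlace.mk p ((c : ℤ) : K) ≤
        max (FinitePlace.mk p (aeval x P)) (FinitePlace.mk p (aeval x Q)) := by
      rw [← key]
      refine (fin_add_le p _ _).trans (max_le_max ?_ ?_)
      · rw [map_mul]
        exact mul_le_of_le_one_left (apply_nonneg _ _) hA
      · rw [map_mul]
        exact mul_le_of_le_one_left (apply_nonneg _ _) hB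
    have hcK : ((c : ℤ) : K) ≠ 0 := by exact_mod_cast hc
    have hcp : 0 < FinitePlace.mk p ((c : ℤ) : K) := FinitePlace.pos_iff.2 hcK
    have hDc : -Real.log (FinitePlace.mk p ((c : ℤ) : K)) ≤ Real.log |(c : ℝ)| * dg K := by
      have h1 := neg_log_av_le (.inr p) ((c : ℤ) : K)
      have h2 := D_intCast_le (K := K) c hc
      simp only [mt, av_inr, Nat.cast_one, one_mul] at h1
      linarith
    have fin : ∀ z : ℝ, FinitePlace.mk p ((c : ℤ) : K) ≤ z → ((1 : ℕ) : ℝ) * -Real.log z ≤
        max (Real.log M) (Real.log |(c : ℝ)|) * dg K := by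
      intro z hz
      have h9 := Real.log_le_log hcp hz
      rw [Nat.cast_one, one_mul]
      calc -Real.log z ≤ Real.log |(c : ℝ)| * dg K := by linarith
        _ ≤ _ := mul_le_mul_of_nonneg_right (le_max_right _ _) hd.le
    rcases le_max_iff.1 hsum with h' | h'
    · exact Or.inl (fin _ h')
    · exact Or.inr (fin _ h')

end Pool.Agent.N757.RD
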