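import Pool.Agent.N757.RD.Maps

/-!
# Powers modulo primes
-/

set_option autoImplicit false

namespace Pool.Agent.N757.RD

open NumberField IsDedekindDomain Height Real Polynomial

variable {K : Type} [Field K] [NumberField K]

theorem mk_le_one_iff (p : HeightOneSpectrum (𝓞 K)) (x : K) :
    FinitePlace.mk p x ≤ 1 ↔ p.valuation K x ≤ 1 := by
  have hN := HeightOneSpectrum.one_lt_absNorm_nnreal p
  rw [FinitePlace.mk_apply, FinitePlace.norm_embedding', ← WithZeroMulInt.toNNReal_le_one_iff hN]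
  exact_mod_cast Iff.rfl

theorem mk_lt_one_iff (p : HeightOneSpectrum (𝓞 K)) (x : K) :
    FinitePlace.mk p x < 1 ↔ p.valuation K x < 1 := by
  have hN := HeightOneSpectrum.one_lt_absNorm_nnreal p
  rw [FinitePlace.mk_apply, FinitePlace.norm_embedding', ← WithZeroMulInt.toNNReal_lt_one_iff hN]
  exact_mod_cast Iff.rfl

theorem exists_close (p : HeightOneSpectrum (𝓞 K)) {x : K} (hx : FinitePlace.mk p x ≤ 1) :
    ∃ a : 𝓞 K, FinitePlace.mk p (algebraMap (𝓞 K) K a - x) < 1 := by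
  obtain ⟨a, ha⟩ := HeightOneSpectrum.exists_valuation_sub_lt_of_integer p
    ((mk_le_one_iff p x).1 hx) 1
  exact ⟨a, (mk_lt_one_iff p _).2 (by simpa using ha)⟩

theorem fin_add_lt {p : HeightOneSpectrum (𝓞 K)} {x y : K} (hx : FinitePlace.mk p x < 1)
    (hy : FinitePlace.mk p y < 1) : FinitePlace.mk p (x + y) < 1 :=
  (fin_add_le p x y).trans_lt (max_lt hx hy)

theorem pow_close {p : HeightOneSpectrum (𝓞 K)} {a z : K} (hz : FinitePlace.mk p z ≤ 1)
    (ha : FinitePlace.mk p a ≤ 1) (h : FinitePlace.mk p (a - z) < 1) (k : ℕ) :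
    FinitePlace.mk p (a ^ k - z ^ k) < 1 := by
  induction k with
  | zero => simp
  | succ k ih =>
    have h1 : a ^ (k + 1) - z ^ (k + 1) = a ^ k * (a - z) + (a ^ k - z ^ k) * z := by ring
    rw [h1]
    refine fin_add_lt ?_ ?_
    · rw [map_mul, map_pow]
      have : FinitePlace.mk p a ^ k ≤ 1 := pow_le_one₀ (apply_nonneg _ _) ha
      have h0 : 0 ≤ FinitePlace.mk p a ^ k := by positivity
      nlinarith [apply_nonneg (FinitePlace.mk p) (a - z)]
    · rw [map_mul]
      nlinarith [apply_nonneg (FinitePlace.mk p) z, apply_nonneg (FinitePlace.mk p) (a ^ k - z ^ k)]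

/-- the order of an element modulo a prime -/
theorem exists_order (p : HeightOneSpectrum (𝓞 K)) {z : K} (hz : FinitePlace.mk p z = 1) :
    ∃ o : ℕ, 0 < o ∧ o ∣ Ideal.absNorm p.asIdeal - 1 ∧
      ∀ k : ℕ, FinitePlace.mk p (1 - z ^ k) < 1 ↔ o ∣ k := by
  obtain ⟨a, ha⟩ := exists_close p hz.le
  have ha1 : FinitePlace.mk p (algebraMap (𝓞 K) K a) ≤ 1 := by
    rw [FinitePlace.mk_apply]
    exact FinitePlace.norm_le_one K p a
  have hane : ¬ FinitePlace.mk p (algebraMap (𝓞 K) K a) < 1 := by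
    intro h
    have h1 : FinitePlace.mk p (-(algebraMap (𝓞 K) K a - z)) < 1 := by rwa [map_neg_eq_map]
    have h2 := fin_add_lt h h1
    have h3 : algebraMap (𝓞 K) K a + -(algebraMap (𝓞 K) K a - z) = z := by ring
    rw [h3, hz] at h2
    exact lt_irrefl _ h2
  have : p.asIdeal.IsMaximal := p.isMaximal
  let _ : Field (𝓞 K ⧸ p.asIdeal) := Ideal.Quotient.field _
  have : Finite (𝓞 K ⧸ p.asIdeal) := p.asIdeal.finiteQuotientOfFreeOfNeBot p.ne_bot
  have : Fintype (𝓞 K ⧸ p.asIdeal) := Fintype.ofFinite _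
  set u : 𝓞 K ⧸ p.asIdeal := Ideal.Quotient.mk p.asIdeal a with hu
  have hu0 : u ≠ 0 := by
    intro h
    apply hane
    rw [hu, Ideal.Quotient.eq_zero_iff_mem] at h
    rw [FinitePlace.mk_apply]
    exact (FinitePlace.norm_lt_one_iff_mem K p a).2 h
  have hcard : Fintype.card (𝓞 K ⧸ p.asIdeal) = Ideal.absNorm p.asIdeal := by
    rw [Ideal.absNorm_apply, Submodule.cardQuot_apply, Nat.card_eq_fintype_card]
  have hpow := FiniteField.pow_card_sub_one_eq_one u hu0
  rw [hcard] at hpow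
  have hcard1 : 0 < Ideal.absNorm p.asIdeal - 1 := by
    have := HeightOneSpectrum.one_lt_absNorm p
    omega
  refine ⟨orderOf u, orderOf_pos_iff.2 (isOfFinOrder_iff_pow_eq_one.2 ⟨_, hcard1, hpow⟩),
    orderOf_dvd_of_pow_eq_one hpow, fun k => ?_⟩
  rw [orderOf_dvd_iff_pow_eq_one]
  have h1 := pow_close (hz.le) ha1 ha k
  have h2 : FinitePlace.mk p (1 - z ^ k) < 1 ↔
      FinitePlace.mk p (1 - (algebraMap (𝓞 K) K a) ^ k) < 1 := by
    constructor
    · intro h
      have h3 : FinitePlace.mk p (-((algebraMap (𝓞 K) K a) ^ k - z ^ k)) < 1 := by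
        rwa [map_neg_eq_map]
      have := fin_add_lt h h3
      have e : 1 - z ^ k + -((algebraMap (𝓞 K) K a) ^ k - z ^ k) =
        1 - (algebraMap (𝓞 K) K a) ^ k := by ring
      rwa [e] at this
    · intro h
      have := fin_add_lt h h1
      have e : 1 - (algebraMap (𝓞 K) K a) ^ k + ((algebraMap (𝓞 K) K a) ^ k - z ^ k) =
        1 - z ^ k := by ring
      rwa [e] at this
  rw [h2]
  have h3 : (1 : K) - (algebraMap (𝓞 K) K a) ^ k = algebraMap (𝓞 K) K (1 - a ^ k) := by simp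
  rw [h3, FinitePlace.mk_apply, FinitePlace.norm_lt_one_iff_mem K p,
    ← Ideal.Quotient.eq_zero_iff_mem, map_sub, map_one, map_pow, sub_eq_zero]
  exact eq_comm

theorem dvd_div_pow {o n M s l a : ℕ} (hl : l.Prime) (hM : M ^ s ∣ n) (hs : 1 ≤ s) (hla : l ^ a ∣ M)
    (hlo : ¬ l ^ a ∣ o) (ho : o ∣ n) : o ∣ n / l ^ s := by
  have ha1 : 1 ≤ a := by
    rcases Nat.eq_zero_or_pos a with h | h
    · exact absurd (by rw [h, pow_zero]; exact one_dvd o) hlo
    · exact h
  have hls : l ^ s ∣ n := by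
    refine (pow_dvd_pow_of_dvd ?_ s).trans hM
    exact (dvd_pow_self l (by omega)).trans hla
  obtain ⟨n', hn'⟩ := hls
  have hlspos : 0 < l ^ s := pow_pos hl.pos s
  have hdiv : n / l ^ s = n' := by rw [hn']; exact Nat.mul_div_cancel_left _ hlspos
  rw [hdiv, Nat.dvd_iff_prime_pow_dvd_dvd]
  intro p k hp hpk
  by_cases hpl : p = l
  · subst hpl
    have hka : k < a := by
      by_contra h
      exact hlo ((pow_dvd_pow p (not_lt.1 h)).trans hpk)
    have h1 : p ^ (s * a) ∣ n := by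
      rw [mul_comm, pow_mul]
      exact (pow_dvd_pow_of_dvd hla s).trans hM
    have h2 : s + k ≤ s * a := by
      obtain ⟨b, rfl⟩ : ∃ b, a = b + 1 := ⟨a - 1, by omega⟩
      have : b ≤ s * b := Nat.le_mul_of_pos_left b (by omega)
      rw [mul_add, mul_one]
      omega
    have h3 : p ^ s * p ^ k ∣ p ^ s * n' := by
      rw [← pow_add, ← hn']
      exact (pow_dvd_pow p h2).trans h1
    exact Nat.dvd_of_mul_dvd_mul_left hlspos h3
  · have h1 : p ^ k ∣ l ^ s * n' := by rw [← hn']; exact hpk.trans ho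
    have h2 : Nat.Coprime (p ^ k) (l ^ s) := Nat.Coprime.pow k s ((Nat.coprime_primes hp hl).2 hpl)
    exact h2.dvd_of_dvd_mul_left h1

/-- primes of norm not congruent to one modulo `M` which divide `1 - z ^ n` -/
theorem exists_prime_factor {p : HeightOneSpectrum (𝓞 K)} {z : K} {n M s : ℕ}
    (hz : FinitePlace.mk p z = 1) (h : FinitePlace.mk p (1 - z ^ n) < 1) (hs : 1 ≤ s)
    (hM : M ^ s ∣ n) (hM0 : M ≠ 0) (hp : ¬ M ∣ Ideal.absNorm p.asIdeal - 1) :
    ∃ l ∈ M.primeFactors, FinitePlace.mk p (1 - z ^ (n / l ^ s)) < 1 := by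
  obtain ⟨o, ho0, ho1, ho⟩ := exists_order p hz
  rw [Nat.dvd_iff_prime_pow_dvd_dvd] at hp
  push Not at hp
  obtain ⟨l, a, hl, hla, hlN⟩ := hp
  have ha1 : a ≠ 0 := by
    rintro rfl
    exact hlN (by rw [pow_zero]; exact one_dvd _)
  refine ⟨l, Nat.mem_primeFactors.2 ⟨hl, (dvd_pow_self l ha1).trans hla, hM0⟩, ?_⟩
  rw [ho]
  exact dvd_div_pow hl hM hs hla (fun h' => hlN (h'.trans ho1)) ((ho n).1 h)

end Pool.Agent.N757.RD
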