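import Pool.Agent.N757.RD.Chain

/-!
# The radicals of `F n x`, and the choice of the exponent
-/

set_option autoImplicit false

namespace Pool.Agent.N757.RD

open NumberField IsDedekindDomain Height Real Polynomial

section

variable {K : Type} [Field K] [NumberField K]

/-- the primes at which `x` is not a unit -/
def supp (x : K) : Set (HeightOneSpectrum (𝓞 K)) := {p | FinitePlace.mk p x ≠ 1}

theorem supp_subset (x : K) : supp x ⊆ lows x ∪ lows x⁻¹ := by
  intro p hp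
  rcases lt_or_gt_of_ne hp with h | h
  · exact Or.inl h
  · right
    simp only [lows, Set.mem_ofPred_eq, map_inv₀]
    exact inv_lt_one_of_one_lt₀ h

theorem W_supp_le {x : K} (hx : x ≠ 0) : W (supp x) ≤ 2 * D x := by
  have f1 := finite_lows hx
  have f2 := finite_lows (inv_ne_zero hx)
  have h1 := W_mono (supp_subset x) (f1.union f2)
  have h2 := W_union f1 f2
  have h3 := W_lows_le hx
  have h4 := W_lows_le (inv_ne_zero hx)
  rw [D_inv] at h4
  linarith

theorem R_le {x : K} (h0 : x ≠ 0) (h1 : x ≠ 1) : R x ≤ 3 * D x + c1 * dg K := by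
  have h1' : (1 : K) - x ≠ 0 := sub_ne_zero.2 h1.symm
  have hsub : I x ⊆ supp x ∪ lows (1 - x) := by
    intro p hp
    by_cases hx : FinitePlace.mk p x = 1
    · right
      have h2 : FinitePlace.mk p (1 - x) ≠ 1 := by
        rcases hp with h | h
        · exact absurd hx h
        · exact h
      refine lt_of_le_of_ne ?_ h2
      have h3 := fin_add_le p (1 : K) (-x)
      rw [← sub_eq_add_neg, map_one, map_neg_eq_map, hx, max_self] at h3
      exact h3
    · exact Or.inl hx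
  have f1 : (supp x).Finite := finite_ne_one h0
  have f2 := finite_lows h1'
  unfold R
  have e1 := W_mono hsub (f1.union f2)
  have e2 := W_union f1 f2
  have e3 := W_supp_le h0
  have e4 := W_lows_le h1'
  have e5 := D_one_sub_le' x
  linarith

theorem W_biUnion {ι : Type} (s : Finset ι) (A : ι → Set (HeightOneSpectrum (𝓞 K)))
    (hA : ∀ i ∈ s, (A i).Finite) : (⋃ i ∈ s, A i).Finite ∧ W (⋃ i ∈ s, A i) ≤ ∑ i ∈ s, W (A i) := by
  classical
  induction s using Finset.induction_on with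
  | empty =>
    simp only [Finset.notMem_empty, Set.iUnion_of_empty, Set.iUnion_empty, Set.finite_empty,
      Finset.sum_empty, true_and]
    unfold W
    simp
  | insert a s ha ih =>
    obtain ⟨ih1, ih2⟩ := ih fun i hi => hA i (Finset.mem_insert_of_mem hi)
    have h1 := hA a (Finset.mem_insert_self _ _)
    rw [Finset.set_biUnion_insert, Finset.sum_insert ha]
    refine ⟨h1.union ih1, ?_⟩
    have := W_union h1 ih1
    linarith

/-- the primes in the radical whose norm is not congruent to one modulo `M` -/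
def bad (M : ℕ) (x : K) : Set (HeightOneSpectrum (𝓞 K)) :=
  {p | p ∈ I x ∧ ¬ M ∣ Ideal.absNorm p.asIdeal - 1}

theorem D_one_sub_pow (z : K) (k : ℕ) : D (1 - z ^ k) ≤ k * D z + c1 * dg K := by
  have := D_one_sub_le' (z ^ k)
  rwa [D_pow] at this

theorem bad_pow {z : K} {n M s : ℕ} (h0 : z ≠ 0) (h1 : z ≠ 1) (hn : z ^ n ≠ 1) (hs : 1 ≤ s)
    (hM : M ^ s ∣ n) (hM0 : M ≠ 0) : W (bad M (z ^ n)) ≤
      (3 + ∑ l ∈ M.primeFactors, ((n / l ^ s : ℕ) : ℝ)) * D z +
        ((1 + M.primeFactors.card) * c1) * dg K := by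
  have hsub : bad M (z ^ n) ⊆ I z ∪ ⋃ l ∈ M.primeFactors, lows (1 - z ^ (n / l ^ s)) := by
    intro p hp
    by_cases hpz : p ∈ I z
    · exact Or.inl hpz
    · right
      simp only [I, Set.mem_ofPred_eq, not_or, not_not] at hpz
      obtain ⟨h2, h3⟩ := hpz
      obtain ⟨hp1, hp2⟩ := hp
      have h4 : FinitePlace.mk p (z ^ n) = 1 := by rw [map_pow, h2, one_pow]
      have h5 : FinitePlace.mk p (1 - z ^ n) ≠ 1 := by
        rcases hp1 with h | h
        · exact absurd h4 h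
        · exact h
      have h6 : FinitePlace.mk p (1 - z ^ n) < 1 := by
        refine lt_of_le_of_ne ?_ h5
        have h7 := fin_add_le p (1 : K) (-z ^ n)
        rw [← sub_eq_add_neg, map_one, map_neg_eq_map, h4, max_self] at h7
        exact h7
      obtain ⟨l, hl, hl2⟩ := exists_prime_factor h2 h6 hs hM hM0 hp2
      exact Set.mem_biUnion (x := l) hl hl2
  have hne : ∀ l ∈ M.primeFactors, (1 : K) - z ^ (n / l ^ s) ≠ 0 := by
    intro l hl h
    apply hn
    have h2 : z ^ (n / l ^ s) = 1 := (sub_eq_zero.1 h).symm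
    have h3 : l ^ s ∣ n := (pow_dvd_pow_of_dvd (Nat.dvd_of_mem_primeFactors hl) s).trans hM
    rw [← Nat.div_mul_cancel h3, pow_mul, h2, one_pow]
  obtain ⟨f2, e2⟩ := W_biUnion M.primeFactors (fun l => lows (1 - z ^ (n / l ^ s)))
    fun l hl => finite_lows (hne l hl)
  have f1 := finite_I h0 h1
  have e1 := W_mono hsub (f1.union f2)
  have e3 := W_union f1 f2
  have e4 : ∑ l ∈ M.primeFactors, W (lows (1 - z ^ (n / l ^ s))) ≤
      ∑ l ∈ M.primeFactors, (((n / l ^ s : ℕ) : ℝ) * D z + c1 * dg K) :=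
    Finset.sum_le_sum fun l hl => (W_lows_le (hne l hl)).trans (D_one_sub_pow z _)
  rw [Finset.sum_add_distrib, ← Finset.sum_mul, Finset.sum_const, nsmul_eq_mul] at e4
  have e5 : W (I z) ≤ 3 * D z + c1 * dg K := R_le h0 h1
  nlinarith

end

/-! ### The choice of the exponent -/

theorem totient_div_le {P n : ℕ} (hP : P ∣ n) (hn : 0 < n) :
    (n.totient : ℝ) / n ≤ (P.totient : ℝ) / P := by
  have hP0 : 0 < P := Nat.pos_of_dvd_of_pos hP hn
  have key : ∀ m : ℕ, 0 < m → (m.totient : ℝ) / m = ∏ p ∈ m.primeFactors, (1 - (p : ℝ)⁻¹) := by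
    intro m hm
    have h1 := Nat.totient_eq_mul_prod_factors m
    have h2 : (m.totient : ℝ) = m * ∏ p ∈ m.primeFactors, (1 - (p : ℝ)⁻¹) := by
      have h3 := congrArg (fun q : ℚ => (q : ℝ)) h1
      push_cast at h3
      exact h3
    rw [h2, mul_div_assoc, mul_comm]
    rw [div_mul_cancel₀ _ (by exact_mod_cast hm.ne' : (m:ℝ) ≠ 0)]
  rw [key n hn, key P hP0]
  have hsub := Nat.primeFactors_mono hP hn.ne'
  have h01 : ∀ p ∈ n.primeFactors, 0 ≤ 1 - (p : ℝ)⁻¹ ∧ 1 - (p : ℝ)⁻¹ ≤ 1 := by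
    intro p hp
    have h1 := (Nat.prime_of_mem_primeFactors hp).one_lt
    have h2 : (1 : ℝ) < p := by exact_mod_cast h1
    have h3 : (p : ℝ)⁻¹ < 1 := inv_lt_one_of_one_lt₀ h2
    have h4 : (0 : ℝ) < (p : ℝ)⁻¹ := by positivity
    constructor <;> linarith
  rw [← Finset.prod_sdiff hsub]
  have h5 : ∏ p ∈ n.primeFactors \ P.primeFactors, (1 - (p : ℝ)⁻¹) ≤ 1 :=
    Finset.prod_le_one (fun p hp => (h01 p (Finset.mem_sdiff.1 hp).1).1)
      (fun p hp => (h01 p (Finset.mem_sdiff.1 hp).1).2)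
  have h6 : 0 ≤ ∏ p ∈ P.primeFactors, (1 - (p : ℝ)⁻¹) :=
    Finset.prod_nonneg fun p hp => (h01 p (hsub hp)).1
  nlinarith

theorem exists_totient_small (κ : ℝ) (hκ : 0 < κ) : ∃ P : ℕ, 0 < P ∧
    (P.totient : ℝ) / P ≤ κ := by
  have hns := Nat.Primes.not_summable_one_div
  -- partial sums are unbounded
  obtain ⟨s, hs⟩ : ∃ s : Finset Nat.Primes, -Real.log κ < ∑ p ∈ s, (1 / (p : ℝ)) := by
    by_contra hcon
    push Not at hcon
    apply hns
    exact summable_of_sum_le (fun p => by positivity) hcon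
  set t : Finset ℕ := s.map ⟨fun p : Nat.Primes => (p : ℕ), Subtype.coe_injective⟩ with ht
  have htp : ∀ p ∈ t, p.Prime := by
    intro p hp
    rw [ht, Finset.mem_map] at hp
    obtain ⟨q, -, rfl⟩ := hp
    exact q.2
  have hsum : ∑ p ∈ t, (1 / (p : ℝ)) = ∑ p ∈ s, (1 / (p : ℝ)) := by
    rw [ht, Finset.sum_map]
    rfl
  refine ⟨∏ p ∈ t, p, Finset.prod_pos fun p hp => (htp p hp).pos, ?_⟩
  have h0 : 0 < ∏ p ∈ t, p := Finset.prod_pos fun p hp => (htp p hp).pos
  have h1 := Nat.totient_eq_mul_prod_factors (∏ p ∈ t, p)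
  rw [Nat.primeFactors_prod htp] at h1
  have h2 : ((∏ p ∈ t, p : ℕ).totient : ℝ) = (∏ p ∈ t, p : ℕ) * ∏ p ∈ t, (1 - (p : ℝ)⁻¹) := by
    have h3 := congrArg (fun q : ℚ => (q : ℝ)) h1
    push_cast at h3
    push_cast
    exact h3
  rw [h2, mul_div_assoc, mul_comm, div_mul_cancel₀ _ (by exact_mod_cast h0.ne')]
  calc ∏ p ∈ t, (1 - (p : ℝ)⁻¹) ≤ ∏ p ∈ t, Real.exp (-(1 / (p : ℝ))) := by
        refine Finset.prod_le_prod ?_ ?_
        · intro p hp
          have h3 : (1 : ℝ) < p := by exact_mod_cast (htp p hp).one_lt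
          have h4 : (p : ℝ)⁻¹ < 1 := inv_lt_one_of_one_lt₀ h3
          linarith
        · intro p hp
          have := Real.add_one_le_exp (-(1 / (p : ℝ)))
          rw [one_div] at this ⊢
          linarith
    _ = Real.exp (-∑ p ∈ t, (1 / (p : ℝ))) := by
        rw [← Real.exp_sum, Finset.sum_neg_distrib]
    _ ≤ κ := by
        rw [hsum]
        have : -∑ p ∈ s, (1 / (p : ℝ)) ≤ Real.log κ := by linarith
        exact (Real.exp_le_exp.2 this).trans_eq (Real.exp_log hκ)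

theorem exists_exponent (κ : ℝ) (hκ : 0 < κ) (r M : ℕ) (hr : 0 < r) (hM : 0 < M) :
    ∃ n s : ℕ, 0 < n ∧ 1 ≤ s ∧ r ∣ n ∧ M ^ s ∣ n ∧ (n.totient : ℝ) / n ≤ κ ∧
      (3 + ∑ l ∈ M.primeFactors, ((n / l ^ s : ℕ) : ℝ)) / n ≤ κ ∧ 2 / (n : ℝ) ≤ κ := by
  obtain ⟨P, hP, hPκ⟩ := exists_totient_small κ hκ
  obtain ⟨s0, hs0⟩ := exists_nat_gt (2 * (M.primeFactors.card : ℝ) / κ)
  obtain ⟨T0, hT0⟩ := exists_nat_gt (6 / κ)
  set s := s0 + 1 with hs
  set T := T0 + 1 with hT
  set n := r * M ^ s * P * T with hn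
  have hT1 : 0 < T := Nat.succ_pos _
  have hMs : 0 < M ^ s := pow_pos hM s
  have hn0 : 0 < n := by positivity
  have hn0' : (0 : ℝ) < n := by exact_mod_cast hn0
  have hTn : (T : ℝ) ≤ n := by
    have : T ≤ n := Nat.le_of_dvd hn0 ⟨r * M ^ s * P, by rw [hn]; ring⟩
    exact_mod_cast this
  have hT6 : 6 / κ < n := by
    have : (T : ℝ) = T0 + 1 := by rw [hT]; push_cast; ring
    linarith
  have h6 : 6 < κ * n := by
    rw [div_lt_iff₀ hκ] at hT6
    linarith
  refine ⟨n, s, hn0, by omega, ⟨M ^ s * P * T, by rw [hn]; ring⟩, ⟨r * P * T, by rw [hn]; ring⟩,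
    ?_, ?_, ?_⟩
  · exact (totient_div_le ⟨r * M ^ s * T, by rw [hn]; ring⟩ hn0).trans hPκ
  · rw [div_le_iff₀ hn0']
    have h2 : ∀ l ∈ M.primeFactors, ((n / l ^ s : ℕ) : ℝ) ≤ n / 2 ^ s := by
      intro l hl
      have hl2 := (Nat.prime_of_mem_primeFactors hl).two_le
      refine Nat.cast_div_le.trans ?_
      push_cast
      have : (2 : ℝ) ^ s ≤ (l : ℝ) ^ s := pow_le_pow_left₀ (by norm_num) (by exact_mod_cast hl2) s
      gcongr
    have h3 : ∑ l ∈ M.primeFactors, ((n / l ^ s : ℕ) : ℝ) ≤ M.primeFactors.card * (n / 2 ^ s) := by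
      refine (Finset.sum_le_sum h2).trans (le_of_eq ?_)
      rw [Finset.sum_const, nsmul_eq_mul]
    have h4 : (s0 : ℝ) ≤ 2 ^ s := by
      have h5 : s0 < 2 ^ s0 := Nat.lt_two_pow_self
      have h6 : 2 ^ s0 ≤ 2 ^ s := Nat.pow_le_pow_right (by norm_num) (by omega)
      exact_mod_cast (h5.le.trans h6)
    have h5 : 2 * (M.primeFactors.card : ℝ) < κ * 2 ^ s := by
      rw [div_lt_iff₀ hκ] at hs0
      nlinarith
    have h7 : (M.primeFactors.card : ℝ) * (n / 2 ^ s) ≤ κ * n / 2 := by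
      have h8 : (0 : ℝ) < 2 ^ s := by positivity
      rw [mul_div_assoc', div_le_div_iff₀ h8 (by norm_num)]
      nlinarith
    linarith
  · rw [div_le_iff₀ hn0']
    linarith

end Pool.Agent.N757.RD
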